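import Mathlib

set_option autoImplicit false

/-!
# Pairs of real `2 × 2` matrices with equal trace and equal determinant: words which are strict
maximisers of rank one functionals
-/

namespace Pool.Agent.R580.Gpfa

open Matrix

/-- The matrix `P_{w_1} ⋯ P_{w_n}` of a word -/
def wordProd {k : ℕ} (P : Bool → Matrix (Fin k) (Fin k) ℝ) (w : List Bool) :
    Matrix (Fin k) (Fin k) ℝ := (w.map P).prod

lemma wordProd_append {k : ℕ} (P : Bool → Matrix (Fin k) (Fin k) ℝ) (u v : List Bool) :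
    wordProd P (u ++ v) = wordProd P u * wordProd P v := by
  simp [wordProd]

/-- some rank one functional has `w` as its strict maximiser among the words of its length -/
def Att (P : Bool → Matrix (Fin 2) (Fin 2) ℝ) (w : List Bool) : Prop :=
  ∃ α β : Fin 2 → ℝ, ∀ w' : List Bool, w'.length = w.length → w' ≠ w →
    α ⬝ᵥ (wordProd P w' *ᵥ β) < α ⬝ᵥ (wordProd P w *ᵥ β)

lemma Att.factor {P : Bool → Matrix (Fin 2) (Fin 2) ℝ} {u w v : List Bool}
    (h : Att P (u ++ w ++ v)) : Att P w := by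
  obtain ⟨α, β, h⟩ := h
  refine ⟨α ᵥ* wordProd P u, wordProd P v *ᵥ β, fun w' hl hne => ?_⟩
  have key : ∀ A B C : Matrix (Fin 2) (Fin 2) ℝ,
      α ⬝ᵥ ((A * B * C) *ᵥ β) = (α ᵥ* A) ⬝ᵥ (B *ᵥ (C *ᵥ β)) := by
    intro A B C
    rw [← Matrix.mulVec_mulVec, ← Matrix.mulVec_mulVec, Matrix.dotProduct_mulVec]
  have := h (u ++ w' ++ v) (by simp [hl]) (by simp [hne])
  rw [wordProd_append, wordProd_append, wordProd_append, wordProd_append, key, key] at this
  exact this

/-- substitution of blocks of equal length -/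
lemma wordProd_subst {P : Bool → Matrix (Fin 2) (Fin 2) ℝ} (B : Bool → List Bool)
    (w : List Bool) : wordProd P (w.flatMap B) = wordProd (fun b => wordProd P (B b)) w := by
  induction w with
  | nil => rfl
  | cons a w ih =>
    rw [List.flatMap_cons, wordProd_append, ih]
    simp [wordProd]

lemma length_subst (B : Bool → List Bool) (hB : (B false).length = (B true).length)
    (w : List Bool) : (w.flatMap B).length = w.length * (B true).length := by
  induction w with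
  | nil => simp
  | cons a w ih =>
    rw [List.flatMap_cons, List.length_append, ih, List.length_cons]
    cases a
    · rw [hB]; ring
    · ring

lemma subst_injective (B : Bool → List Bool) (hB : (B false).length = (B true).length)
    (hne : B false ≠ B true) : ∀ w w' : List Bool, w.length = w'.length →
      w.flatMap B = w'.flatMap B → w = w' := by
  intro w
  induction w with
  | nil => intro w' hl _; cases w' with
    | nil => rfl
    | cons a w' => simp at hl
  | cons a w ih =>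
    intro w' hl h
    cases w' with
    | nil => simp at hl
    | cons a' w' =>
      rw [List.flatMap_cons, List.flatMap_cons] at h
      have hlen : (B a).length = (B a').length := by
        cases a <;> cases a' <;> simp [hB]
      obtain ⟨h1, h2⟩ := List.append_inj h hlen
      have ha : a = a' := by
        cases a <;> cases a' <;> simp_all
      rw [ha, ih w' (by simpa using hl) h2]

lemma Att.subst {P : Bool → Matrix (Fin 2) (Fin 2) ℝ} (B : Bool → List Bool)
    (hB : (B false).length = (B true).length) (hne : B false ≠ B true) {w : List Bool}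
    (h : Att P (w.flatMap B)) : Att (fun b => wordProd P (B b)) w := by
  obtain ⟨α, β, h⟩ := h
  refine ⟨α, β, fun w' hl hw => ?_⟩
  rw [← wordProd_subst, ← wordProd_subst]
  exact h _ (by rw [length_subst B hB, length_subst B hB, hl])
    (fun he => hw (subst_injective B hB hne _ _ hl he))

/-! ### Normal form -/

lemma rank_one (α1 α2 β1 β2 p1 p2 p3 q1 q2 q3 : ℝ) (hp2 : p2 ≠ 0)
    (h : 2 * p1 * q1 + p2 * q3 + p3 * q2 = 0) :
    (q1 ^ 2 + q2 * q3) * ((-(p1 ^ 2 + p2 * p3)) * (α1 * β1 + α2 * β2) ^ 2 +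
        (α1 * (p1 * β1 + p2 * β2) + α2 * (p3 * β1 - p1 * β2)) ^ 2) =
      (-(p1 ^ 2 + p2 * p3)) * (α1 * (q1 * β1 + q2 * β2) + α2 * (q3 * β1 - q1 * β2)) ^ 2 +
        (α1 * ((p1 * q1 + p2 * q3) * β1 + (p1 * q2 - p2 * q1) * β2) +
          α2 * ((p3 * q1 - p1 * q3) * β1 + (p3 * q2 + p1 * q1) * β2)) ^ 2 := by
  have h3 : q3 = -(2 * p1 * q1 + p3 * q2) / p2 := by
    field_simp
    linear_combination h
  subst h3
  field_simp
  ring

open Quaternion in
/-- Normal form of a pair of matrices with the same trace and determinant -/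
lemma normal_form (U V : Matrix (Fin 2) (Fin 2) ℝ) (hT : U.trace = V.trace)
    (hD : U.det = V.det) :
    ∃ (c a b : ℝ) (φ : ℍ[ℝ, a, 0, b] →ₐ[ℝ] Matrix (Fin 2) (Fin 2) ℝ),
      φ ⟨c, 1, 1, 0⟩ = U ∧ φ ⟨c, 1, -1, 0⟩ = V ∧ U.trace = 2 * c ∧ U.det = c ^ 2 - a - b ∧
      (U * V).trace = 2 * (c ^ 2 + a - b) ∧
      (a < 0 → (0 ≤ b ∧ (b = 0 → U = V)) ∧
        ∀ α β : Fin 2 → ℝ,
        b * ((-a) * (α ⬝ᵥ (φ 1 *ᵥ β)) ^ 2 + (α ⬝ᵥ (φ ⟨0, 1, 0, 0⟩ *ᵥ β)) ^ 2) =
          (-a) * (α ⬝ᵥ (φ ⟨0, 0, 1, 0⟩ *ᵥ β)) ^ 2 + (α ⬝ᵥ (φ ⟨0, 0, 0, 1⟩ *ᵥ β)) ^ 2) := by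
  obtain ⟨u0, hu0⟩ : ∃ x, x = U 0 0 := ⟨_, rfl⟩
  obtain ⟨u1, hu1⟩ : ∃ x, x = U 0 1 := ⟨_, rfl⟩
  obtain ⟨u2, hu2⟩ : ∃ x, x = U 1 0 := ⟨_, rfl⟩
  obtain ⟨u3, hu3⟩ : ∃ x, x = U 1 1 := ⟨_, rfl⟩
  obtain ⟨v0, hv0⟩ : ∃ x, x = V 0 0 := ⟨_, rfl⟩
  obtain ⟨v1, hv1⟩ : ∃ x, x = V 0 1 := ⟨_, rfl⟩
  obtain ⟨v2, hv2⟩ : ∃ x, x = V 1 0 := ⟨_, rfl⟩
  obtain ⟨v3, hv3⟩ : ∃ x, x = V 1 1 := ⟨_, rfl⟩
  have hU : U = !![u0, u1; u2, u3] := by
    rw [hu0, hu1, hu2, hu3]; exact Matrix.eta_fin_two U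
  have hV : V = !![v0, v1; v2, v3] := by
    rw [hv0, hv1, hv2, hv3]; exact Matrix.eta_fin_two V
  clear hu0 hu1 hu2 hu3 hv0 hv1 hv2 hv3
  subst hU hV
  rw [Matrix.trace_fin_two_of, Matrix.trace_fin_two_of] at hT
  rw [Matrix.det_fin_two_of, Matrix.det_fin_two_of] at hD
  obtain ⟨c, hc⟩ : ∃ c, c = (u0 + u3) / 2 := ⟨_, rfl⟩
  obtain ⟨p1, hp1⟩ : ∃ x, x = (u0 + v0) / 2 - c := ⟨_, rfl⟩
  obtain ⟨p2, hp2⟩ : ∃ x, x = (u1 + v1) / 2 := ⟨_, rfl⟩
  obtain ⟨p3, hp3⟩ : ∃ x, x = (u2 + v2) / 2 := ⟨_, rfl⟩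
  obtain ⟨q1, hq1⟩ : ∃ x, x = (u0 - v0) / 2 := ⟨_, rfl⟩
  obtain ⟨q2, hq2⟩ : ∃ x, x = (u1 - v1) / 2 := ⟨_, rfl⟩
  obtain ⟨q3, hq3⟩ : ∃ x, x = (u2 - v2) / 2 := ⟨_, rfl⟩
  have e0 : u0 = c + p1 + q1 := by rw [hp1, hq1]; ring
  have e1 : u1 = p2 + q2 := by rw [hp2, hq2]; ring
  have e2 : u2 = p3 + q3 := by rw [hp3, hq3]; ring
  have e3 : u3 = c - p1 - q1 := by rw [hp1, hq1]; linear_combination (-2 : ℝ) * hc
  have g0 : v0 = c + p1 - q1 := by rw [hp1, hq1]; ring
  have g1 : v1 = p2 - q2 := by rw [hp2, hq2]; ring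
  have g2 : v2 = p3 - q3 := by rw [hp3, hq3]; ring
  have g3 : v3 = c - p1 + q1 := by rw [hp1, hq1]; linear_combination (-2 : ℝ) * hc - hT
  clear hc hp1 hp2 hp3 hq1 hq2 hq3
  subst e0 e1 e2 e3 g0 g1 g2 g3
  have h : 2 * p1 * q1 + p2 * q3 + p3 * q2 = 0 := by linear_combination (-1 / 2 : ℝ) * hD
  clear hT hD
  obtain ⟨a, ha⟩ : ∃ a, a = p1 ^ 2 + p2 * p3 := ⟨_, rfl⟩
  obtain ⟨b, hb⟩ : ∃ b, b = q1 ^ 2 + q2 * q3 := ⟨_, rfl⟩
  let B : QuaternionAlgebra.Basis (Matrix (Fin 2) (Fin 2) ℝ) a 0 b :=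
    { i := !![p1, p2; p3, -p1]
      j := !![q1, q2; q3, -q1]
      k := !![p1, p2; p3, -p1] * !![q1, q2; q3, -q1]
      i_mul_i := by
        rw [ha]
        ext i j
        fin_cases i <;> fin_cases j <;> simp [Matrix.mul_apply, Fin.sum_univ_two] <;> ring
      j_mul_j := by
        rw [hb]
        ext i j
        fin_cases i <;> fin_cases j <;> simp [Matrix.mul_apply, Fin.sum_univ_two] <;> ring
      i_mul_j := rfl
      j_mul_i := by
        ext i j
        fin_cases i <;> fin_cases j <;> simp [Matrix.mul_apply, Fin.sum_univ_two] <;>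
          linarith }
  have hφ : ∀ x : ℍ[ℝ, a, 0, b], B.liftHom x = !![x.re + x.imI * p1 + x.imJ * q1 +
      x.imK * (p1 * q1 + p2 * q3), x.imI * p2 + x.imJ * q2 + x.imK * (p1 * q2 - p2 * q1);
      x.imI * p3 + x.imJ * q3 + x.imK * (p3 * q1 - p1 * q3), x.re - x.imI * p1 - x.imJ * q1 +
      x.imK * (p3 * q2 + p1 * q1)] := by
    intro x
    change B.lift x = _
    rw [QuaternionAlgebra.Basis.lift]
    ext i j
    fin_cases i <;> fin_cases j <;>
      simp [B, Algebra.algebraMap_eq_smul_one, -mul_eq_mul_left_iff] <;> ring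
  refine ⟨c, a, b, B.liftHom, ?_, ?_, ?_, ?_, ?_, ?_⟩
  · rw [hφ]
    ext i j
    fin_cases i <;> fin_cases j <;> simp <;> ring
  · rw [hφ]
    ext i j
    fin_cases i <;> fin_cases j <;> simp <;> ring
  · rw [Matrix.trace_fin_two_of]; ring
  · rw [Matrix.det_fin_two_of, ha, hb]; linear_combination (-1 : ℝ) * h
  · rw [Matrix.trace_fin_two, ha, hb]
    simp [Matrix.mul_apply, Fin.sum_univ_two]
    ring
  · intro hneg
    have hp2 : p2 ≠ 0 := by
      rintro rfl
      rw [ha] at hneg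
      nlinarith [sq_nonneg p1]
    have key : 4 * (p1 ^ 2 - a) * b = -4 * a * q1 ^ 2 + (p2 * q3 - p3 * q2) ^ 2 := by
      have : (2 * p1 * q1) ^ 2 = (p2 * q3 + p3 * q2) ^ 2 := by
        have : 2 * p1 * q1 = -(p2 * q3 + p3 * q2) := by linarith
        rw [this]; ring
      rw [ha, hb]
      linear_combination this
    have hpos : 0 < 4 * (p1 ^ 2 - a) := by nlinarith [sq_nonneg p1]
    have hb0 : 0 ≤ b := by
      by_contra hcon
      push Not at hcon
      nlinarith [mul_pos hpos (neg_pos.mpr hcon), mul_nonneg (neg_nonneg.mpr hneg.le)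
        (sq_nonneg q1), sq_nonneg (p2 * q3 - p3 * q2)]
    refine ⟨⟨hb0, fun hbz => ?_⟩, fun α β => ?_⟩
    · rw [hbz, mul_zero] at key
      have h1 : q1 ^ 2 = 0 := by
        have := mul_nonneg (neg_nonneg.mpr hneg.le) (sq_nonneg q1)
        have h2 : -a * q1 ^ 2 = 0 := by nlinarith [sq_nonneg (p2 * q3 - p3 * q2)]
        rcases mul_eq_zero.mp h2 with h3 | h3
        · linarith
        · exact h3
      have h2 : (p2 * q3 - p3 * q2) ^ 2 = 0 := by nlinarith
      have hq1 : q1 = 0 := by simpa using h1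
      have h3 : p2 * q3 - p3 * q2 = 0 := by simpa using h2
      subst hq1
      have h4 : p2 * q3 = 0 := by linarith
      have hq3 : q3 = 0 := by
        rcases mul_eq_zero.mp h4 with h5 | h5
        · exact absurd h5 hp2
        · exact h5
      have h6 : p3 * q2 = 0 := by linarith
      have hq2 : q2 = 0 := by
        rcases mul_eq_zero.mp h6 with h5 | h5
        · exfalso
          rw [h5] at ha
          nlinarith [sq_nonneg p1]
        · exact h5
      subst hq3 hq2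
      simp
    · rw [hφ, hφ, hφ, hφ]
      have := rank_one (α 0) (α 1) (β 0) (β 1) p1 p2 p3 q1 q2 q3 hp2 h
      rw [← ha, ← hb] at this
      simp only [dotProduct, Matrix.mulVec, Fin.sum_univ_two, Matrix.of_apply, Matrix.cons_val',
        Matrix.cons_val_zero, Matrix.cons_val_one, QuaternionAlgebra.re_one,
        QuaternionAlgebra.imI_one, QuaternionAlgebra.imJ_one, QuaternionAlgebra.imK_one]
      simp only [one_mul, zero_mul, add_zero, zero_add, sub_zero,
        zero_sub]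
      linear_combination this

/-- the two letters in the quaternion algebra -/
def letter (c a b : ℝ) (x : Bool) : QuaternionAlgebra ℝ a 0 b :=
  if x then ⟨c, 1, -1, 0⟩ else ⟨c, 1, 1, 0⟩

open Quaternion in
/-- All the data of an attained word in coordinates. -/
lemma att_coords {Q : Bool → Matrix (Fin 2) (Fin 2) ℝ} (hT : (Q false).trace = (Q true).trace)
    (hD : (Q false).det = (Q true).det) :
    ∃ c a b : ℝ, (Q false).trace = 2 * c ∧ (Q false).det = c ^ 2 - a - b ∧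
      (Q false * Q true).trace = 2 * (c ^ 2 + a - b) ∧
      (a < 0 → 0 ≤ b ∧ (b = 0 → Q false = Q true)) ∧
      ∀ w, Att Q w → ∃ f1 fp fq fr : ℝ,
        (a < 0 → b * ((-a) * f1 ^ 2 + fp ^ 2) = (-a) * fq ^ 2 + fr ^ 2) ∧
        ∀ w' : List Bool, w'.length = w.length → w' ≠ w →
          0 < (((w.map (letter c a b)).prod).re - ((w'.map (letter c a b)).prod).re) * f1 +
            (((w.map (letter c a b)).prod).imI - ((w'.map (letter c a b)).prod).imI) * fp +
            (((w.map (letter c a b)).prod).imJ - ((w'.map (letter c a b)).prod).imJ) * fq +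
            (((w.map (letter c a b)).prod).imK - ((w'.map (letter c a b)).prod).imK) * fr := by
  obtain ⟨c, a, b, φ, hU, hV, h1, h2, h3, h4⟩ := normal_form _ _ hT hD
  refine ⟨c, a, b, h1, h2, h3, fun ha => (h4 ha).1, ?_⟩
  rintro w ⟨α, β, h⟩
  have hw : ∀ w, wordProd Q w = φ ((w.map (letter c a b)).prod) := by
    intro w
    rw [map_list_prod, List.map_map, wordProd]
    congr 1
    apply List.map_congr_left
    intro x _
    cases x
    · exact hU.symm
    · exact hV.symm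
  have hlin : ∀ x : ℍ[ℝ, a, 0, b], α ⬝ᵥ (φ x *ᵥ β) = x.re * (α ⬝ᵥ (φ 1 *ᵥ β)) +
      x.imI * (α ⬝ᵥ (φ ⟨0, 1, 0, 0⟩ *ᵥ β)) + x.imJ * (α ⬝ᵥ (φ ⟨0, 0, 1, 0⟩ *ᵥ β)) +
      x.imK * (α ⬝ᵥ (φ ⟨0, 0, 0, 1⟩ *ᵥ β)) := by
    intro x
    have : x = x.re • (1 : ℍ[ℝ, a, 0, b]) + x.imI • (⟨0, 1, 0, 0⟩ : ℍ[ℝ, a, 0, b]) +
        x.imJ • (⟨0, 0, 1, 0⟩ : ℍ[ℝ, a, 0, b]) + x.imK • (⟨0, 0, 0, 1⟩ : ℍ[ℝ, a, 0, b]) := by
      ext <;> simp
    conv_lhs => rw [this]
    rw [map_add, map_add, map_add, map_smul, map_smul, map_smul, map_smul]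
    simp only [Matrix.add_mulVec, Matrix.smul_mulVec, dotProduct_add, dotProduct_smul,
      smul_eq_mul]
  refine ⟨_, _, _, _, fun ha => (h4 ha).2 α β, fun w' hl hne => ?_⟩
  have := h w' hl hne
  rw [hw, hw, hlin, hlin ((w.map (letter c a b)).prod)] at this
  linarith

/-- The trace inequality. -/
theorem att_trace {Q : Bool → Matrix (Fin 2) (Fin 2) ℝ} (hT : (Q false).trace = (Q true).trace)
    (hD : (Q false).det = (Q true).det) (h0 : 0 ≤ (Q false).det)
    (h : Att Q [false, true, true, false]) :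
    0 < (Q false).det ∧ (Q false * Q true).trace < 2 * (Q false).det := by
  obtain ⟨c, a, b, -, h2, h3, -, h5⟩ := att_coords hT hD
  obtain ⟨f1, fp, fq, fr, -, h⟩ := h5 _ h
  have e1 := h [false, false, true, false] rfl (by decide)
  have e2 := h [false, true, false, false] rfl (by decide)
  have e3 := h [false, true, false, true] rfl (by decide)
  have e4 := h [true, false, true, false] rfl (by decide)
  simp only [letter, List.map_cons, List.map_nil, List.prod_cons, List.prod_nil, mul_one,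
    QuaternionAlgebra.mk_mul_mk, if_true, Bool.false_eq_true, if_false] at e1 e2 e3 e4
  have s1 : (c ^ 2 - a - b) * (c * fq + b * f1) < 0 := by linarith
  have s2 : 0 < a * (c * fq + b * f1) := by linarith
  rw [h2] at h0 ⊢
  rw [h3]
  have hd : 0 < c ^ 2 - a - b := by
    rcases h0.lt_or_eq with h6 | h6
    · exact h6
    · rw [← h6, zero_mul] at s1
      exact absurd s1 (lt_irrefl _)
  have hf : c * fq + b * f1 < 0 := by
    by_contra hcon
    push Not at hcon
    exact absurd s1 (not_lt.mpr (mul_nonneg hd.le hcon))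
  have ha : a < 0 := by
    by_contra hcon
    push Not at hcon
    have := mul_nonneg hcon (neg_nonneg.mpr hf.le)
    linarith
  exact ⟨hd, by linarith⟩

lemma real_xyx (c A b d f1 P f3 f4 : ℝ) (hA : 0 < A) (hb : 0 < b) (hd : 0 < d)
    (hdef : d = c ^ 2 + A - b) (R : b * (A * f1 ^ 2 + P ^ 2) = A * f3 ^ 2 + f4 ^ 2)
    (h3 : 0 < (d - 4 * A) * f3) (h2 : 2 * b * c * f1 < 2 * b * P - (d + 2 * b) * f3)
    (h4 : c * f4 < b * P - A * f3) (h4' : -(c * f4) < b * P - A * f3) : d < 4 * A := by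
  by_contra hcon
  push Not at hcon
  have hf3 : 0 < f3 := by
    by_contra h
    push Not at h
    exact absurd h3 (not_lt.mpr (mul_nonpos_of_nonneg_of_nonpos (by linarith) h))
  have hE : (c * f4) ^ 2 < (b * P - A * f3) ^ 2 := by
    apply sq_lt_sq'
    · linarith
    · exact h4
  have hc2 : c ^ 2 = d + b - A := by linarith
  have hI : b * A * (c * f1) ^ 2 < A * (d + b) * f3 ^ 2 - 2 * b * A * P * f3 -
      b * (d - A) * P ^ 2 := by
    have e : b * A * (c * f1) ^ 2 = c ^ 2 * (A * f3 ^ 2) + (c * f4) ^ 2 - b * c ^ 2 * P ^ 2 := by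
      linear_combination c ^ 2 * R
    rw [e, hc2]
    nlinarith
  rcases le_or_gt 0 (2 * b * P - (d + 2 * b) * f3) with hG | hG
  · have h0 : 0 ≤ b * A * (c * f1) ^ 2 := by positivity
    have h1 : 0 ≤ A * f3 * (2 * b * P - (d + 2 * b) * f3) := by positivity
    have h5 : 0 ≤ b * (d - A) * P ^ 2 := by
      apply mul_nonneg (mul_nonneg hb.le (by linarith)) (sq_nonneg _)
    have h6 : 0 < A * b * f3 ^ 2 := by positivity
    nlinarith
  · have hsq : (2 * b * P - (d + 2 * b) * f3) ^ 2 < (2 * b * c * f1) ^ 2 := by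
      rw [← neg_sq (2 * b * P - _), ← neg_sq (2 * b * c * f1)]
      apply sq_lt_sq' <;> linarith
    have h7 : A * (2 * b * P - (d + 2 * b) * f3) ^ 2 < 4 * b * (A * (d + b) * f3 ^ 2 -
        2 * b * A * P * f3 - b * (d - A) * P ^ 2) := by
      calc A * (2 * b * P - (d + 2 * b) * f3) ^ 2 < A * (2 * b * c * f1) ^ 2 :=
            mul_lt_mul_of_pos_left hsq hA
        _ = 4 * b * (b * A * (c * f1) ^ 2) := by ring
        _ < _ := mul_lt_mul_of_pos_left hI (by linarith)
    have h8 : d * ((2 * b * P - A * f3) ^ 2 + A * (d - A) * f3 ^ 2) < 0 := by nlinarith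
    have h9 : 0 ≤ (2 * b * P - A * f3) ^ 2 + A * (d - A) * f3 ^ 2 :=
      add_nonneg (sq_nonneg _) (mul_nonneg (mul_nonneg hA.le (by linarith)) (sq_nonneg _))
    exact absurd h8 (not_lt.mpr (mul_nonneg hd.le h9))

lemma real_xxx (c A b d f1 fp Q f4 : ℝ) (hb : 0 < b) (hd : 0 < d)
    (hdef : d = c ^ 2 + A - b) (R : b * (A * f1 ^ 2 + fp ^ 2) = A * Q ^ 2 + f4 ^ 2)
    (h3 : (4 * c ^ 2 - d) * Q < 0) (h2 : (d + 2 * b) * Q - 2 * b * c * f1 < 2 * b * fp)
    (h4 : 0 < c * (b * f1 - c * Q + f4)) (h4' : 0 < c * (b * f1 - c * Q - f4)) :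
    d < 4 * c ^ 2 := by
  by_contra hcon
  push Not at hcon
  have hQ : 0 < Q := by
    by_contra h
    push Not at h
    exact absurd h3 (not_lt.mpr (mul_nonneg_of_nonpos_of_nonpos (by linarith) h))
  have hc0 : c ≠ 0 := by
    rintro rfl
    simp at h4
  have hc2 : 0 < c ^ 2 := by positivity
  have hE : f4 ^ 2 < (b * f1 - c * Q) ^ 2 := by
    have h5 : (c * f4) ^ 2 < (c * (b * f1 - c * Q)) ^ 2 := by
      apply sq_lt_sq' <;> linarith
    rw [mul_pow, mul_pow] at h5
    exact lt_of_mul_lt_mul_left h5 hc2.le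
  have hA2 : A = d + b - c ^ 2 := by linarith
  have hI : b * fp ^ 2 < (d + b) * Q ^ 2 - 2 * b * c * f1 * Q - b * (d - c ^ 2) * f1 ^ 2 := by
    have e : b * fp ^ 2 = A * Q ^ 2 + f4 ^ 2 - b * A * f1 ^ 2 := by
      linear_combination R
    rw [e, hA2]
    nlinarith
  have hdc : 0 < d - c ^ 2 := by linarith
  rcases le_or_gt ((d + 2 * b) * Q - 2 * b * c * f1) 0 with hG | hG
  · have h0 : 0 ≤ b * fp ^ 2 := by positivity
    have h1 : 0 ≤ Q * (2 * b * c * f1 - (d + 2 * b) * Q) := mul_nonneg hQ.le (by linarith)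
    have h5 : 0 ≤ b * (d - c ^ 2) * f1 ^ 2 := by positivity
    have h6 : 0 < b * Q ^ 2 := by positivity
    nlinarith
  · have hsq : ((d + 2 * b) * Q - 2 * b * c * f1) ^ 2 < (2 * b * fp) ^ 2 := by
      apply sq_lt_sq' <;> linarith
    have h7 : ((d + 2 * b) * Q - 2 * b * c * f1) ^ 2 < 4 * b * ((d + b) * Q ^ 2 -
        2 * b * c * f1 * Q - b * (d - c ^ 2) * f1 ^ 2) := by
      calc ((d + 2 * b) * Q - 2 * b * c * f1) ^ 2 < (2 * b * fp) ^ 2 := hsq
        _ = 4 * b * (b * fp ^ 2) := by ring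
        _ < _ := mul_lt_mul_of_pos_left hI (by linarith)
    have h8 : d * ((2 * b * f1 - c * Q) ^ 2 + (d - c ^ 2) * Q ^ 2) < 0 := by nlinarith
    have h9 : 0 ≤ (2 * b * f1 - c * Q) ^ 2 + (d - c ^ 2) * Q ^ 2 := by positivity
    exact absurd h8 (not_lt.mpr (mul_nonneg hd.le h9))

lemma Att.ne {Q : Bool → Matrix (Fin 2) (Fin 2) ℝ} {x : Bool} {w : List Bool}
    (h : Att Q (x :: w)) : Q false ≠ Q true := by
  intro he
  obtain ⟨α, β, h⟩ := h
  have := h ((!x) :: w) rfl (by simp)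
  have h2 : wordProd Q ((!x) :: w) = wordProd Q (x :: w) := by
    cases x <;> simp [wordProd, he]
  rw [h2] at this
  exact lt_irrefl _ this

theorem att_xyx {Q : Bool → Matrix (Fin 2) (Fin 2) ℝ} (hT : (Q false).trace = (Q true).trace)
    (hD : (Q false).det = (Q true).det) (h0 : 0 < (Q false).det)
    (ht : (Q false * Q true).trace < 2 * (Q false).det) (h : Att Q [false, true, false]) :
    (Q false * Q true).trace < (Q false).det := by
  have hne := h.ne
  obtain ⟨c, a, b, -, h2, h3, hb, h5⟩ := att_coords hT hD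
  obtain ⟨f1, fp, fq, fr, R, h⟩ := h5 _ h
  rw [h2] at h0 ht ⊢
  rw [h3] at ht ⊢
  have ha : a < 0 := by linarith
  have hb0 : 0 < b := lt_of_le_of_ne (hb ha).1 fun e => hne ((hb ha).2 e.symm)
  have e1 := h [true, false, true] rfl (by decide)
  have e2 := h [false, false, false] rfl (by decide)
  have e3 := h [false, false, true] rfl (by decide)
  have e4 := h [true, false, false] rfl (by decide)
  simp only [letter, List.map_cons, List.map_nil, List.prod_cons, List.prod_nil, mul_one,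
    QuaternionAlgebra.mk_mul_mk, if_true, Bool.false_eq_true, if_false] at e1 e2 e3 e4
  have key := real_xyx c (-a) b (c ^ 2 - a - b) f1 (-fp) fq fr (by linarith) hb0 h0 (by ring)
    (by rw [neg_sq]; exact R ha) (by linarith) (by linarith) (by linarith) (by linarith)
  linarith

theorem att_xxx {Q : Bool → Matrix (Fin 2) (Fin 2) ℝ} (hT : (Q false).trace = (Q true).trace)
    (hD : (Q false).det = (Q true).det) (h0 : 0 < (Q false).det)
    (ht : (Q false * Q true).trace < 2 * (Q false).det) (h : Att Q [false, false, false]) :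
    (Q false).det < (Q false).trace ^ 2 := by
  have hne := h.ne
  obtain ⟨c, a, b, h1, h2, h3, hb, h5⟩ := att_coords hT hD
  obtain ⟨f1, fp, fq, fr, R, h⟩ := h5 _ h
  rw [h2] at h0 ht ⊢
  rw [h3] at ht
  rw [h1]
  have ha : a < 0 := by linarith
  have hb0 : 0 < b := lt_of_le_of_ne (hb ha).1 fun e => hne ((hb ha).2 e.symm)
  have e1 := h [true, true, true] rfl (by decide)
  have e2 := h [false, true, false] rfl (by decide)
  have e3 := h [false, true, true] rfl (by decide)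
  have e4 := h [true, true, false] rfl (by decide)
  simp only [letter, List.map_cons, List.map_nil, List.prod_cons, List.prod_nil, mul_one,
    QuaternionAlgebra.mk_mul_mk, if_true, Bool.false_eq_true, if_false] at e1 e2 e3 e4
  have key := real_xxx c (-a) b (c ^ 2 - a - b) f1 fp (-fq) fr hb0 h0 (by ring)
    (by rw [neg_sq]; exact R ha) (by linarith) (by linarith) (by linarith) (by linarith)
  linarith

end Pool.Agent.R580.Gpfa
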