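import Pool.Agent.R580.Gpfa.Alg

set_option autoImplicit false

/-!
# A word which no two-state automaton singles out
-/

namespace Pool.Agent.R580.Gpfa

open Matrix

lemma cayley (M : Matrix (Fin 2) (Fin 2) ℝ) : M * M = M.trace • M - M.det • 1 := by
  ext i j
  fin_cases i <;> fin_cases j <;>
    simp [Matrix.mul_apply, Fin.sum_univ_two, Matrix.trace_fin_two, Matrix.det_fin_two] <;> ring

lemma trace_one_two : (1 : Matrix (Fin 2) (Fin 2) ℝ).trace = 2 := by
  simp

/-- the blocks `0110` and `1001` -/
def blk0 (b : Bool) : List Bool :=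
  if b then [true, false, false, true] else [false, true, true, false]

/-- the blocks `01` and `10` -/
def blk1 (b : Bool) : List Bool := if b then [true, false] else [false, true]

/-- the blocks `001` and `010` -/
def blk2 (b : Bool) : List Bool := if b then [false, true, false] else [false, false, true]

/-- the outer structure of the hard word -/
def outer : List Bool :=
  [false, false, true, false, true, false, false, true, false, false, false, true,
    true, false, true, false, true, false, true]

/-- A word of length `76` -/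
def hard : List Bool := outer.flatMap blk0

lemma length_hard : hard.length = 76 := rfl

theorem not_att_outer {Q : Bool → Matrix (Fin 2) (Fin 2) ℝ}
    (hT : (Q false).trace = (Q true).trace) (hD : (Q false).det = (Q true).det)
    (h0 : 0 ≤ (Q false).det) : ¬ Att Q outer := by
  intro h
  -- the five factors
  have w1 : Att Q [false, true, true, false] := by
    have : outer = [false, false, true, false, true, false, false, true, false, false] ++
      [false, true, true, false] ++ [true, false, true, false, true] := rfl
    rw [this] at h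
    exact h.factor
  have w2 : Att Q [false, true, false] := by
    have : outer = [false] ++ [false, true, false] ++ [true, false, false, true, false, false,
      false, true, true, false, true, false, true, false, true] := rfl
    rw [this] at h
    exact h.factor
  have w3 : Att Q [false, false, false] := by
    have : outer = [false, false, true, false, true, false, false, true] ++
      [false, false, false] ++ [true, true, false, true, false, true, false, true] := rfl
    rw [this] at h
    exact h.factor
  have w4 : Att Q ([false, false, false].flatMap blk1) := by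
    have : outer = [false, false, true, false, true, false, false, true, false, false, false,
      true, true] ++ [false, false, false].flatMap blk1 ++ [] := rfl
    rw [this] at h
    exact h.factor
  have w5 : Att Q ([false, true, true, false].flatMap blk2) := by
    have : outer = [] ++ [false, true, true, false].flatMap blk2 ++
      [true, false, true, false, true, false, true] := rfl
    rw [this] at h
    exact h.factor
  obtain ⟨hd, h1⟩ := att_trace hT hD h0 w1
  have h2 := att_xyx hT hD hd h1 w2
  have h3 := att_xxx hT hD hd h1 w3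
  have w4' := Att.subst blk1 rfl (by decide) w4
  have w5' := Att.subst blk2 rfl (by decide) w5
  obtain ⟨X, hX⟩ : ∃ X, X = Q false := ⟨_, rfl⟩
  obtain ⟨Y, hY⟩ : ∃ Y, Y = Q true := ⟨_, rfl⟩
  obtain ⟨T, hTd⟩ : ∃ T, T = X.trace := ⟨_, rfl⟩
  obtain ⟨δ, hδ⟩ : ∃ δ, δ = X.det := ⟨_, rfl⟩
  obtain ⟨S, hS⟩ : ∃ S, S = (X * Y).trace := ⟨_, rfl⟩
  have hcX : X * X = T • X - δ • 1 := by rw [hTd, hδ]; exact cayley X
  have hcY : Y * Y = T • Y - δ • 1 := by
    have := cayley Y
    rwa [hY, ← hT, ← hD, ← hX, ← hY, ← hTd, ← hδ] at this
  have hcXY : (X * Y) * (X * Y) = S • (X * Y) - (δ ^ 2) • 1 := by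
    rw [cayley (X * Y), ← hS, Matrix.det_mul]
    congr 2
    rw [hδ, hX, hY, ← hD]; ring
  have hYt : Y.trace = T := by rw [hTd, hX, hY]; exact hT.symm
  rw [← hX, ← hδ] at hd h1 h2 h3
  rw [← hTd] at h3
  rw [← hY, ← hS] at h1 h2
  -- the pair `(XY, YX)`
  have b1f : wordProd Q (blk1 false) = X * Y := by
    simp [wordProd, blk1, hX, hY]
  have b1t : wordProd Q (blk1 true) = Y * X := by
    simp [wordProd, blk1, hX, hY]
  have t1 : ((X * Y) * (Y * X)).trace = T ^ 2 * (S - 2 * δ) + 2 * δ ^ 2 := by
    have e : (X * Y) * (Y * X) = (X * (Y * Y)) * X := by noncomm_ring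
    rw [e, Matrix.trace_mul_comm, ← Matrix.mul_assoc, hcX, hcY]
    simp only [Matrix.sub_mul, Matrix.mul_sub, Matrix.smul_mul, Matrix.mul_smul, Matrix.mul_one,
      Matrix.one_mul, Matrix.trace_sub, Matrix.trace_smul, smul_eq_mul, ← hS, hYt, ← hTd,
      trace_one_two]
    ring
  have h4 : δ ^ 2 < S ^ 2 := by
    have hd2 : (X * Y).det = δ ^ 2 := by
      rw [Matrix.det_mul, hδ, hX, hY, ← hD]; ring
    have := att_xxx (Q := fun b => wordProd Q (blk1 b))
      (by rw [b1f, b1t]; exact Matrix.trace_mul_comm X Y)
      (by rw [b1f, b1t, Matrix.det_mul, Matrix.det_mul, mul_comm])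
      (by rw [b1f, hd2]; positivity)
      (by
        rw [b1f, b1t, hd2, t1]
        have hT2 : 0 < T ^ 2 := lt_trans hd h3
        nlinarith [mul_pos hT2 (show 0 < 2 * δ - S by linarith)]) w4'
    rwa [b1f, hd2, ← hS] at this
  -- the pair `(XXY, XYX)`
  have b2f : wordProd Q (blk2 false) = X * (X * Y) := by
    simp [wordProd, blk2, hX, hY]
  have b2t : wordProd Q (blk2 true) = X * Y * X := by
    simp [wordProd, blk2, hX, hY, Matrix.mul_assoc]
  have t2 : ((X * (X * Y)) * (X * Y * X)).trace =
      T ^ 2 * S ^ 2 - δ * T ^ 2 * S - δ ^ 2 * T ^ 2 - δ * S ^ 2 + 2 * δ ^ 3 := by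
    have e : (X * (X * Y)) * (X * Y * X) = (X * ((X * Y) * (X * Y))) * X := by noncomm_ring
    rw [e, Matrix.trace_mul_comm, ← Matrix.mul_assoc, hcX, hcXY]
    have e2 : X * (X * Y) = T • (X * Y) - δ • Y := by
      rw [← Matrix.mul_assoc, hcX]
      simp only [Matrix.sub_mul, Matrix.smul_mul, Matrix.one_mul]
    simp only [Matrix.sub_mul, Matrix.mul_sub, Matrix.smul_mul, Matrix.mul_smul, Matrix.mul_one,
      Matrix.one_mul, Matrix.trace_sub, Matrix.trace_smul, smul_eq_mul, e2, ← hS, hYt, ← hTd,
      trace_one_two]
    ring
  have h5 : T ^ 2 * S ^ 2 - δ * T ^ 2 * S - δ ^ 2 * T ^ 2 - δ * S ^ 2 < 0 := by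
    have hd3 : (X * (X * Y)).det = δ ^ 3 := by
      rw [Matrix.det_mul, Matrix.det_mul, hδ, hX, hY, ← hD]; ring
    have := (att_trace (Q := fun b => wordProd Q (blk2 b))
      (by rw [b2f, b2t]; exact Matrix.trace_mul_comm X (X * Y))
      (by rw [b2f, b2t]; simp only [Matrix.det_mul]; ring)
      (by rw [b2f, hd3]; positivity) w5').2
    rw [b2f, b2t, hd3, t2] at this
    linarith
  have h6 : S < -δ := by
    by_contra hcon
    push Not at hcon
    have := abs_lt_of_sq_lt_sq h4 (by
      by_contra h7
      push Not at h7
      nlinarith)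
    rw [abs_lt] at this
    nlinarith
  have h7 : 0 < S ^ 2 - δ * S - δ ^ 2 := by nlinarith
  nlinarith [mul_pos (sub_pos.mpr h3) h7, mul_pos (mul_pos hd hd) (show 0 < -S - δ by linarith)]

theorem not_att_hard (P : Bool → Matrix (Fin 2) (Fin 2) ℝ) : ¬ Att P hard := by
  intro h
  have h1 := Att.subst blk0 rfl (by decide) h
  refine not_att_outer (Q := fun b => wordProd P (blk0 b)) ?_ ?_ ?_ h1
  · have e1 : wordProd P (blk0 false) = (P false * P true) * (P true * P false) := by
      simp [wordProd, blk0, Matrix.mul_assoc]
    have e2 : wordProd P (blk0 true) = (P true * P false) * (P false * P true) := by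
      simp [wordProd, blk0, Matrix.mul_assoc]
    rw [e1, e2, Matrix.trace_mul_comm]
  · simp [wordProd, blk0]
    ring
  · have : ((fun b => wordProd P (blk0 b)) false).det = ((P false).det * (P true).det) ^ 2 := by
      simp [wordProd, blk0]
      ring
    rw [this]
    positivity

end Pool.Agent.R580.Gpfa
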